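import Pool.Agent.Y682.ZS

/-!
# Project GE, package CNV2: the number of the locally trivial cocycles with values in `E[2]`

`Zc_lower` of `Pool/Agent/Y682/ZS.lean` is an equality.
-/

set_option autoImplicit false
set_option linter.unusedSectionVars false

attribute [-instance] DivisionRing.toRatAlgebra

open NumberField IsDedekindDomain

namespace Pool.Agent.U171.GE

open WeierstrassCurve

open Pool.Agent.Y682

open Pool.Agent.TH841.NF

open Pool.Agent.TH841.SH (IsR IsX gf isX_zero isX_some not_isX)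

open Pool.Agent.TH841.SH.D (Pt act Gal Coch IsCoc IsCob LocTriv cob)

section

variable {K : Type} [Field K] [NumberField K] {W : WeierstrassCurve K} {A B : K}

/-- the number of the locally trivial cocycles with values in `E[2]` -/
theorem Zc_upper (hT : IsT W A B) [Finite {x : Pool.Agent.TH841.NF.D.Sha W // 2 • x = 0}] :
    Finite (Zc W) ∧ Nat.card (Zc W) ≤ 4 * 2 ^ (Module.finrank ℤ (MP W)) *
      Nat.card {x : Pool.Agent.TH841.NF.D.Sha W // 2 • x = 0} := by
  classical
  have hfg : Module.Finite ℤ (MP W) := fg_MP hT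
  -- the classes of Sha
  have hsha : ∀ x : {x : Pool.Agent.TH841.NF.D.Sha W // 2 • x = 0}, ∃ f : Zc W,
      (QuotientAddGroup.mk (⟨f.1, f.2.1⟩ : Pool.Agent.TH841.NF.D.shaCoc W) :
        Pool.Agent.TH841.NF.D.Sha W) = x.1 := by
    rintro ⟨x, hx⟩
    induction x using QuotientAddGroup.induction_on with
    | H f0 =>
      have h1 : IsCob W ((2 • f0 : Pool.Agent.TH841.NF.D.shaCoc W) : Coch W) :=
        (QuotientAddGroup.eq_zero_iff (2 • f0)).1 hx
      obtain ⟨P0, hP0⟩ := isCob_iff.1 h1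
      obtain ⟨Q0, hQ0⟩ := exists_half hT P0
      have hP0' : f0.1 + f0.1 = dl Q0 + dl Q0 := by
        rw [← dl_add, ← hQ0, ← hP0, two_smul]
        rfl
      refine ⟨⟨f0.1 - dl Q0, sha_sub f0.2 (dl_sha Q0), fun σ => ?_⟩, ?_⟩
      · have h3 : f0.1 - dl Q0 + (f0.1 - dl Q0) = (f0.1 + f0.1) - (dl Q0 + dl Q0) := by abel
        have h4 : f0.1 - dl Q0 + (f0.1 - dl Q0) = 0 := by rw [h3, hP0', sub_self]
        exact congrFun h4 σ
      · refine (QuotientAddGroup.eq (s := (cob W).addSubgroupOf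
          (Pool.Agent.TH841.NF.D.shaCoc W))).2 ?_
        change IsCob W (-(f0.1 - dl Q0) + f0.1)
        refine isCob_iff.2 ⟨Q0, ?_⟩
        abel
  choose fs hfs using hsha
  -- the classes of points
  have hpt : ∀ q : MP W ⧸ (zsmulAddGroupHom (α := MP W) 2).range, ∃ (P : MP W)
      (Q : Pt W (AlgebraicClosure K)), (QuotientAddGroup.mk P : MP W ⧸ _) = q ∧
      inc W P = Q + Q := by
    intro q
    obtain ⟨P, hP⟩ := QuotientAddGroup.mk_surjective q
    obtain ⟨Q, hQ⟩ := exists_half hT (inc W P)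
    exact ⟨P, Q, hP, hQ⟩
  choose Pq Qv hPq hQv using hpt
  have hQZ : ∀ q, dl (Qv q) ∈ Zc W := by
    intro q
    refine ⟨dl_sha _, fun σ => ?_⟩
    have h1 : dl (Qv q) + dl (Qv q) = 0 := by rw [← dl_add, ← hQv, dl_inc]
    exact congrFun h1 σ
  have hRZ : ∀ t ∈ ((dlh W).comp (tp2 W).subtype).range, t ∈ Zc W := by
    rintro _ ⟨R, rfl⟩
    refine ⟨dl_sha _, fun σ => ?_⟩
    have h1 : dl R.1 + dl R.1 = 0 := by
      rw [← dl_add]
      have : R.1 + R.1 = 0 := R.2
      rw [this, dl_zero]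
    exact congrFun h1 σ
  let G : {x : Pool.Agent.TH841.NF.D.Sha W // 2 • x = 0} ×
      (MP W ⧸ (zsmulAddGroupHom (α := MP W) 2).range) × ((dlh W).comp (tp2 W).subtype).range →
      Zc W := fun y => fs y.1 + ⟨dl (Qv y.2.1), hQZ _⟩ + ⟨y.2.2.1, hRZ _ y.2.2.2⟩
  have hG : Function.Surjective G := by
    intro f
    have hff : f.1 + f.1 = 0 := funext f.2.2
    let x : {x : Pool.Agent.TH841.NF.D.Sha W // 2 • x = 0} :=
      ⟨(QuotientAddGroup.mk (⟨f.1, f.2.1⟩ : Pool.Agent.TH841.NF.D.shaCoc W) :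
        Pool.Agent.TH841.NF.D.Sha W), by
        refine (QuotientAddGroup.eq_zero_iff (N := (cob W).addSubgroupOf
          (Pool.Agent.TH841.NF.D.shaCoc W))
          (2 • (⟨f.1, f.2.1⟩ : Pool.Agent.TH841.NF.D.shaCoc W))).2 ?_
        change IsCob W ((2 • (⟨f.1, f.2.1⟩ : Pool.Agent.TH841.NF.D.shaCoc W) :
          Pool.Agent.TH841.NF.D.shaCoc W) : Coch W)
        have h1 : ((2 • (⟨f.1, f.2.1⟩ : Pool.Agent.TH841.NF.D.shaCoc W) :
          Pool.Agent.TH841.NF.D.shaCoc W) : Coch W) = 0 := by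
          rw [two_smul]
          exact hff
        rw [h1]
        exact isCob_iff.2 ⟨0, dl_zero.symm⟩⟩
    have hx := hfs x
    have h1 : IsCob W (-(fs x).1 + f.1) :=
      (QuotientAddGroup.eq (s := (cob W).addSubgroupOf (Pool.Agent.TH841.NF.D.shaCoc W))).1 hx
    obtain ⟨P, hP⟩ := isCob_iff.1 h1
    have h2 : dl (P + P) = 0 := by
      rw [dl_add, ← hP]
      have h3 : (fs x).1 + (fs x).1 = 0 := funext (fs x).2.2
      have h4 : -(fs x).1 + f.1 + (-(fs x).1 + f.1) = -((fs x).1 + (fs x).1) + (f.1 + f.1) := by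
        abel
      rw [h4, h3, hff, neg_zero, add_zero]
    obtain ⟨M, hM⟩ := exists_inc h2
    let q : MP W ⧸ (zsmulAddGroupHom (α := MP W) 2).range := QuotientAddGroup.mk M
    have h3 : -(Pq q) + M ∈ (zsmulAddGroupHom (α := MP W) 2).range :=
      QuotientAddGroup.eq.1 (hPq q)
    obtain ⟨M', hM'⟩ := h3
    have h4 : (2 : ℤ) • M' = -(Pq q) + M := hM'
    have h5 : inc W M' + inc W M' = -(Qv q + Qv q) + (P + P) := by
      rw [← map_add, ← two_zsmul, h4, map_add, map_neg, hQv, hM]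
    have hR : (P - Qv q - inc W M') + (P - Qv q - inc W M') = 0 := by
      have h6 : (P - Qv q - inc W M') + (P - Qv q - inc W M') =
          -(Qv q + Qv q) + (P + P) - (inc W M' + inc W M') := by abel
      rw [h6, h5, sub_self]
    let R : tp2 W := ⟨P - Qv q - inc W M', hR⟩
    have h7 : dl R.1 = dl P - dl (Qv q) := by
      change dl (P - Qv q - inc W M') = _
      rw [dl_sub, dl_sub, dl_inc, sub_zero]
    refine ⟨(x, q, ⟨((dlh W).comp (tp2 W).subtype) R, R, rfl⟩), Subtype.ext ?_⟩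
    change (fs x).1 + dl (Qv q) + dl R.1 = f.1
    rw [h7, ← hP]
    abel
  have hq := Pool.Agent.TeamU.card_quot_two (MP W)
  have h4 := card_tp2 hT
  have hfin4 : Finite (tp2 W) := Nat.finite_of_card_ne_zero (by rw [h4]; norm_num)
  have h5 : Nat.card ((dlh W).comp (tp2 W).subtype).range *
      Nat.card ((dlh W).comp (tp2 W).subtype).ker = 4 := by
    rw [← h4, AddSubgroup.card_eq_card_quotient_mul_card_addSubgroup
      ((dlh W).comp (tp2 W).subtype).ker]
    congr 1
    exact (Nat.card_congr (QuotientAddGroup.quotientKerEquivRange _).toEquiv).symm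
  rw [← card_ker W] at hq
  have hfinr : Finite ((dlh W).comp (tp2 W).subtype).range :=
    Nat.finite_of_card_ne_zero (by intro h; rw [h, zero_mul] at h5; norm_num at h5)
  have hfinq : Finite (MP W ⧸ (zsmulAddGroupHom (α := MP W) 2).range) := by
    refine Nat.finite_of_card_ne_zero ?_
    rw [hq]
    refine mul_ne_zero (pow_ne_zero _ two_ne_zero) ?_
    intro h
    rw [h, mul_zero] at h5
    norm_num at h5
  refine ⟨Finite.of_surjective G hG, ?_⟩
  have hcard := Nat.card_le_card_of_surjective G hG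
  rw [Nat.card_prod, Nat.card_prod, hq] at hcard
  calc Nat.card (Zc W) ≤ _ := hcard
    _ = Nat.card {x : Pool.Agent.TH841.NF.D.Sha W // 2 • x = 0} *
        (2 ^ (Module.finrank ℤ (MP W)) * (Nat.card ((dlh W).comp (tp2 W).subtype).range *
          Nat.card ((dlh W).comp (tp2 W).subtype).ker)) := by ring
    _ = 4 * 2 ^ (Module.finrank ℤ (MP W)) *
      Nat.card {x : Pool.Agent.TH841.NF.D.Sha W // 2 • x = 0} := by rw [h5]; ring

end

end Pool.Agent.U171.GE
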