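import Pool.Agent.U115.GE.StmR
import Pool.Agent.U171.GE.Upper
import Pool.Agent.Y79.SG.Coc
import Pool.Agent.Y79.SG.Lot
import Pool.Agent.Y945.SG.Cob
import Pool.Agent.Y698.SG.Th
import Pool.Agent.Y971.SG.Lq
import Pool.Agent.Y587.SG.LG
import Pool.Agent.H921R2.TatePole.Base

/-!
# Project GE, package CNV2: the lower bound for `2 ^ rank · #Ш[2]`

For `d ∈ T` the cocycles `χ_d T₀`, `χ_{dc} T₀` (`c = a² - 4 b`) and their sums with `σ R - R`,
`2 R = T₀`, are different elements of the group `Zc` of the locally trivial cocycles with values in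
`E[2]`, which has `4 · 2 ^ rank · #Ш[2]` elements (`Zc_upper`).
-/

set_option autoImplicit false
set_option linter.style.haveILetI false
set_option linter.unusedSectionVars false

attribute [-instance] DivisionRing.toRatAlgebra

open NumberField IsDedekindDomain

namespace Pool.Agent.U171.GE

open WeierstrassCurve

open Pool.Agent.Y682

open Pool.Agent.TH841.SH (IsR IsX gf isX_zero isX_some not_isX)

open Pool.Agent.TH841.SH.D (Pt act Gal Coch IsCoc IsCob LocTriv cob)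

open Pool.Agent.Y698.SG.Cv (WF LocI coc T0)

open Pool.Agent.Y945.SG (coc_pos coc_neg fixm)

section

variable (K : Type) [Field K] [CharZero K] {a b : ℤ}

lemma wf_isT (hb : b ≠ 0) (hab : a ^ 2 - 4 * b ≠ 0) : IsT (WF K a b) (a : K) (b : K) where
  h1 := rfl
  h2 := rfl
  h3 := rfl
  h4 := rfl
  h6 := rfl
  hB := by exact_mod_cast hb
  hD := by exact_mod_cast hab

/-- the values of the cocycles -/
lemma coc_isX (hb : b ≠ 0) (d : ℤ) (σ : Gal K) :
    IsX ((WF K a b).baseChange (AlgebraicClosure K)) 0 (coc K hb d σ) := by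
  by_cases h : ∃ s : AlgebraicClosure K, s ^ 2 = (d : AlgebraicClosure K) ∧ σ s ≠ s
  · rw [coc_pos hb d σ h]
    exact isX_some _
  · rw [coc_neg hb d σ h]
    exact isX_zero 0

lemma T0_ne (hb : b ≠ 0) : T0 K (a := a) hb (AlgebraicClosure K) ≠ 0 := by
  intro h
  exact Affine.Point.some_ne_zero _ h

/-- the values of the cocycles in terms of a root -/
lemma coc_root (hb : b ≠ 0) {d : ℤ} {s : AlgebraicClosure K}
    (hs : s ^ 2 = (d : AlgebraicClosure K)) (σ : Gal K) :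
    (σ s = s → coc K (a := a) hb d σ = 0) ∧
      (σ s ≠ s → coc K (a := a) hb d σ = T0 K hb (AlgebraicClosure K)) := by
  constructor
  · intro h
    apply coc_neg
    rintro ⟨s', hs', hne⟩
    apply hne
    rcases sq_eq_sq_iff_eq_or_eq_neg.1 (hs'.trans hs.symm) with h1 | h1
    · rw [h1, h]
    · rw [h1, map_neg, h]
  · intro h
    exact coc_pos _ _ _ ⟨s, hs, h⟩

lemma sq_of_coc (hb : b ≠ 0) {d : ℤ} (h : ∀ σ : Gal K, coc K (a := a) hb d σ = 0) :
    IsSquare (d : K) := by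
  obtain ⟨s, hs⟩ : ∃ s : AlgebraicClosure K, s ^ 2 = (d : AlgebraicClosure K) :=
    IsAlgClosed.exists_pow_nat_eq _ two_pos
  have h1 : ∀ σ : Gal K, σ s = s := by
    intro σ
    by_contra hne
    exact T0_ne K hb (((coc_root K (a := a) hb hs σ).2 hne).symm.trans (h σ))
  obtain ⟨y, hy⟩ := fixm s h1
  refine ⟨y, ?_⟩
  apply (algebraMap K (AlgebraicClosure K)).injective
  rw [map_mul, hy, ← pow_two, hs, map_intCast]

/-- the sum of the cocycles of `d` and of a point of order two -/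
lemma sq_of_coc_tors (hb : b ≠ 0) {d : ℤ} {g : AlgebraicClosure K}
    (hg : g ^ 2 = algebraMap K (AlgebraicClosure K) ((a : K) ^ 2 - 4 * b))
    (h : ∀ σ : Gal K, (coc K (a := a) hb d σ = 0 → σ g = g) ∧
      (coc K (a := a) hb d σ ≠ 0 → σ g = -g)) :
    IsSquare ((d : K) * ((a : K) ^ 2 - 4 * b)) := by
  obtain ⟨s, hs⟩ : ∃ s : AlgebraicClosure K, s ^ 2 = (d : AlgebraicClosure K) :=
    IsAlgClosed.exists_pow_nat_eq _ two_pos
  have h1 : ∀ σ : Gal K, σ (s * g) = s * g := by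
    intro σ
    by_cases hσ : σ s = s
    · rw [map_mul, hσ, (h σ).1 ((coc_root K (a := a) hb hs σ).1 hσ)]
    · have h2 : coc K (a := a) hb d σ ≠ 0 := by
        rw [(coc_root K (a := a) hb hs σ).2 hσ]
        exact T0_ne K hb
      have h3 : σ s = s ∨ σ s = -s := by
        apply sq_eq_sq_iff_eq_or_eq_neg.1
        rw [← map_pow, hs, map_intCast]
      rw [map_mul, h3.resolve_left hσ, (h σ).2 h2]
      ring
  obtain ⟨y, hy⟩ := fixm (s * g) h1
  refine ⟨y, ?_⟩
  apply (algebraMap K (AlgebraicClosure K)).injective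
  rw [map_mul (algebraMap K (AlgebraicClosure K)) y y, hy, map_mul, ← hg, map_intCast, ← hs]
  ring

/-- additivity -/
lemma coc_add' (hb : b ≠ 0) (d d' : ℤ) (hd : d ≠ 0) (hd' : d' ≠ 0) (σ : Gal K) :
    coc K (a := a) hb (d * d') σ = coc K hb d σ + coc K hb d' σ := by
  obtain ⟨s, hs⟩ := IsAlgClosed.exists_pow_nat_eq (d : AlgebraicClosure K) two_pos
  obtain ⟨s', hs'⟩ := IsAlgClosed.exists_pow_nat_eq (d' : AlgebraicClosure K) two_pos
  have hs0 : s ≠ 0 := by
    rintro rfl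
    rw [zero_pow two_ne_zero] at hs
    exact hd (by exact_mod_cast hs.symm)
  have hs0' : s' ≠ 0 := by
    rintro rfl
    rw [zero_pow two_ne_zero] at hs'
    exact hd' (by exact_mod_cast hs'.symm)
  have hss : (s * s') ^ 2 = ((d * d' : ℤ) : AlgebraicClosure K) := by
    rw [mul_pow, hs, hs']
    push_cast
    rfl
  have hns : ∀ t : AlgebraicClosure K, t ≠ 0 → -t ≠ t := by
    intro t ht h
    apply ht
    have h1 : (2 : AlgebraicClosure K) * t = 0 := by linear_combination -h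
    exact (mul_eq_zero.1 h1).resolve_left two_ne_zero
  have hσ : ∀ (e : ℤ) (t : AlgebraicClosure K), t ^ 2 = (e : AlgebraicClosure K) →
      σ t = t ∨ σ t = -t := by
    intro e t ht
    apply sq_eq_sq_iff_eq_or_eq_neg.1
    rw [← map_pow, ht, map_intCast]
  have r1 := coc_root K (a := a) hb hs σ
  have r2 := coc_root K (a := a) hb hs' σ
  have r3 := coc_root K (a := a) hb hss σ
  rcases hσ d s hs with h | h
  · rcases hσ d' s' hs' with h' | h'
    · rw [r1.1 h, r2.1 h', r3.1 (by rw [map_mul, h, h']), add_zero]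
    · rw [r1.1 h, r2.2 (by rw [h']; exact hns _ hs0'),
        r3.2 (by rw [map_mul, h, h', mul_neg]; exact hns _ (mul_ne_zero hs0 hs0')), zero_add]
  · rcases hσ d' s' hs' with h' | h'
    · rw [r1.2 (by rw [h]; exact hns _ hs0), r2.1 h',
        r3.2 (by rw [map_mul, h, h', neg_mul]; exact hns _ (mul_ne_zero hs0 hs0')), add_zero]
    · have h2 := congrFun (Pool.Agent.Y79.SG.t_COC K a b hb d).2 σ
      have h3 : coc K (a := a) hb d σ + coc K hb d σ = 0 := h2
      have h4 := r1.2 (by rw [h]; exact hns _ hs0)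
      rw [h4] at h3
      rw [h4, r2.2 (by rw [h']; exact hns _ hs0'), r3.1 (by rw [map_mul, h, h', neg_mul_neg]), h3]

/-- the half of the point `(0, 0)` -/
lemma half_sq {A B : K} {W : WeierstrassCurve K} (hT : IsT W A B)
    {R : Pt W (AlgebraicClosure K)}
    (hX : IsX (W.baseChange (AlgebraicClosure K)) 0 (R + R)) (h0 : R + R ≠ 0)
    (hσ : ∀ σ : Gal K, IsX (W.baseChange (AlgebraicClosure K)) 0 (act W σ.toAlgHom R - R)) 
    (h2 : ∀ σ : Gal K, (act W σ.toAlgHom R - R) + (act W σ.toAlgHom R - R) = 0) :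
    IsSquare B := by
  have hT' := hT.base (L := AlgebraicClosure K)
  obtain ⟨r, s, hR, hrs1, hrs2, hr0, hs0, hrs⟩ := hT'.roots
  rcases pt_zero_or R with rfl | ⟨u, v, hn, rfl⟩
  · exact absurd (add_zero _) h0
  have hv : v ≠ 0 := by
    intro hv
    exact h0 ((@IsR.add_self _ _ _ _ _ _ (Classical.decEq _) hR two_ne_zero _ _ hn).2 hv)
  obtain ⟨X, Y, hn', e1, e2⟩ := @IsR.dup _ _ _ _ _ _ (Classical.decEq _) hR two_ne_zero _ _ hn hv
  have hX0 : X = 0 := by
    by_contra hne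
    have e3 : sm (W := W) u v hn + sm u v hn = sm X Y hn' := e1
    rw [e3] at hX
    exact not_isX hn' hne hX
  have hu : (u - 0) ^ 2 = (0 - r) * (0 - s) := by
    rw [hX0, sub_zero, eq_comm, sq_eq_zero_iff, div_eq_zero_iff] at e2
    rcases e2 with e2 | e2
    · exact sub_eq_zero.1 e2
    · exact absurd e2 (mul_ne_zero two_ne_zero hv)
  have hfix : ∀ σ : Gal K, σ u = u := by
    intro σ
    have h3 : sm (W := W) u v hn + (act W σ.toAlgHom (sm (W := W) u v hn) - sm (W := W) u v hn) =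
        act W σ.toAlgHom (sm (W := W) u v hn) := by abel
    rw [act_sm] at h3
    have h4 := hσ σ
    have h5 := h2 σ
    rw [act_sm] at h4 h5
    have h6 := (@sign_u _ _ (Classical.decEq _) _ _ _ _ hR two_ne_zero hr0.symm hs0.symm hrs
      _ _ hn hv hu _ h5 _ _ _ h3).1 h4
    have h7 : σ.toAlgHom u = u := by linear_combination h6
    exact h7
  obtain ⟨y, hy⟩ := fixm u hfix
  refine ⟨y, ?_⟩
  apply (algebraMap K (AlgebraicClosure K)).injective
  rw [map_mul (algebraMap K (AlgebraicClosure K)) y y, hy]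
  linear_combination -hu - hrs2

end

section

open Pool.Agent.U115.GE
open Pool.Agent.TH841.NF.D (rk Sha)
open Pool.Agent.H921R2.TatePole (below nm_eq)

lemma loc_map {L L' : Type} [Field L] [Field L'] (φ : L →+* L') {a b d : ℤ} (h : LocI L a b d) :
    LocI L' a b d := by
  obtain ⟨X, Y, r, h1, h2, h3⟩ := h
  refine ⟨φ X, φ Y, φ r, (map_ne_zero φ).2 h1, ?_, ?_⟩
  · have h4 := congrArg φ h2
    simp only [map_pow, map_add, map_sub, map_mul, map_ofNat, map_intCast] at h4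
    exact h4
  · have h4 := congrArg φ h3
    simp only [map_pow, map_mul, map_intCast] at h4
    exact h4

/-- a point of the curve from a point of the covering (copy of `Pool/Agent/U115/GE/Conv.lean`) -/
theorem loc_of_qs {K : Type} [Field K] [CharZero K] (a b d : ℤ) (hd : d ≠ 0)
    (h : Qs K (-2 * a) (a ^ 2 - 4 * b) d)
    (hsq : IsSquare (d : K) ∨ IsSquare ((d : K) * ((a : K) ^ 2 - 4 * b)) → LocI K a b d) :
    LocI K a b d := by
  obtain ⟨N, M, e, hne, hN⟩ := h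
  have hdK : (d : K) ≠ 0 := by exact_mod_cast hd
  by_cases he : e = 0
  · have hM : M ≠ 0 := by tauto
    refine hsq (Or.inl ⟨N / M ^ 2, ?_⟩)
    rw [he] at hN
    have h1 : N ^ 2 = (d : K) * M ^ 4 := by rw [hN]; ring
    rw [div_mul_div_comm, eq_div_iff (mul_ne_zero (pow_ne_zero 2 hM) (pow_ne_zero 2 hM))]
    linear_combination -h1
  by_cases hM : M = 0
  · refine hsq (Or.inr ⟨N * d / e ^ 2, ?_⟩)
    rw [hM] at hN
    have h1 : N ^ 2 * d = ((a : K) ^ 2 - 4 * b) * e ^ 4 := by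
      rw [hN]
      push_cast
      field_simp
      ring
    rw [div_mul_div_comm, eq_div_iff (mul_ne_zero (pow_ne_zero 2 he) (pow_ne_zero 2 he))]
    linear_combination (-(d : K)) * h1
  refine ⟨d * (M / e) ^ 2, d * M * N / e ^ 3, M / e,
    mul_ne_zero hdK (pow_ne_zero 2 (div_ne_zero hM he)), ?_, rfl⟩
  have h1 : N ^ 2 * d = (d : K) ^ 2 * M ^ 4 - 2 * a * d * M ^ 2 * e ^ 2 +
      ((a : K) ^ 2 - 4 * b) * e ^ 4 := by
    rw [hN]
    push_cast
    field_simp
    ring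
  have e1 : (d * M * N / e ^ 3) ^ 2 = (d : K) * M ^ 2 * (N ^ 2 * d) / e ^ 6 := by
    field_simp
  rw [e1, h1]
  field_simp

theorem wf_eq (a b : ℤ) : WF ℚ a b = wc (a : ℚ) (b : ℚ) := by
  unfold WF Pool.Agent.Y668.Wt wc
  rfl

/-- the cocycles are locally trivial -/
theorem coc_zc {a b d : ℤ} (hb : b ≠ 0) (hab : a ^ 2 - 4 * b ≠ 0) (hd : d ≠ 0)
    (hl : ∀ v : HeightOneSpectrum (𝓞 ℚ), LocI (v.adicCompletion ℚ) a b d)
    (hr : LocI ℝ a b d) : coc ℚ hb d ∈ Zc (WF ℚ a b) := by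
  refine ⟨⟨(Pool.Agent.Y79.SG.t_COC ℚ a b hb d).1, fun v => ?_, fun v => ?_⟩,
    fun σ => congrFun (Pool.Agent.Y79.SG.t_COC ℚ a b hb d).2 σ⟩
  · exact Pool.Agent.Y79.SG.Lot.t_LOT ℚ a b hb d hab hd _ (hl v)
  · rcases v.isReal_or_isComplex with h | h
    · exact Pool.Agent.Y79.SG.Lot.t_LOT ℚ a b hb d hab hd _
        (loc_map (InfinitePlace.Completion.ringEquivRealOfIsReal h).symm.toRingHom hr)
    · exact Pool.Agent.Y79.SG.Lot.t_LOT ℚ a b hb d hab hd _
        (loc_map (InfinitePlace.Completion.ringEquivComplexOfIsComplex h).symm.toRingHom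
          (loc_map (algebraMap ℝ ℂ) hr))

open scoped Classical in
/-- **the converse bound without a hypothesis on the rank** -/
theorem t_CNV2 : S_CNV2 := by
  intro a b hb hab nb nab T hT hne hfin
  have hTT : IsT (WF ℚ a b) (a : ℚ) (b : ℚ) := wf_isT ℚ hb hab
  rw [← wf_eq] at hfin ⊢
  obtain ⟨hfZ, hcard⟩ := Zc_upper hTT
  -- the cocycles of `T`
  have hr : ∀ d : ℤ, 0 < d → LocI ℝ a b d := fun d hd =>
    (Pool.Agent.Y971.SG.Lq.t_LQ a b d hb hab hd.ne').2 hd
  have hq : ∀ d : ℤ, 0 < d → ∀ (p : ℕ) [Fact p.Prime], Qs ℚ_[p] (-2 * a) (a ^ 2 - 4 * b) d →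
      LocI ℚ_[p] a b d := fun d hd p hp h =>
    loc_of_qs a b d hd.ne' h fun h2 => Pool.Agent.Y587.SG.lq a b d hab hd.ne' p h2
  have hZ : ∀ x : {d : ℤ // d ∈ T}, coc ℚ hb x.1 ∈ Zc (WF ℚ a b) := fun x =>
    coc_zc hb hab (hT x.1 x.2).1.ne' (fun v => by
      have : Fact (below v : ℕ).Prime := ⟨(below v).2⟩
      exact loc_map (Pool.Agent.Y698.SG.Th.pth (v := v) (p := (below v : ℕ)) (nm_eq v).2.2)
        (hq x.1 (hT x.1 x.2).1 _ ((hT x.1 x.2).2 _))) (hr x.1 (hT x.1 x.2).1)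
  -- the point of order two
  obtain ⟨R1, hR1, hX1⟩ := exists_tors hTT
  obtain ⟨g, hg, hgσ⟩ := tors_g hTT hR1 hX1
  have hz1 : dl R1 ∈ Zc (WF ℚ a b) := ⟨dl_sha R1, fun σ => by
    have h1 : dl R1 + dl R1 = 0 := by rw [← dl_add, hR1, dl_zero]
    exact congrFun h1 σ⟩
  -- the point of order four
  obtain ⟨R, hR⟩ := exists_half hTT (T0 ℚ (a := a) hb (AlgebraicClosure ℚ))
  have hT0X : IsX ((WF ℚ a b).baseChange (AlgebraicClosure ℚ)) 0
      (T0 ℚ (a := a) hb (AlgebraicClosure ℚ)) := isX_some _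
  have hT0T : T0 ℚ (a := a) hb (AlgebraicClosure ℚ) + T0 ℚ (a := a) hb (AlgebraicClosure ℚ) = 0 := by
    obtain ⟨r, s, hRR, hrs1, hrs2, hr0, hs0, hrs⟩ := (hTT.base (L := AlgebraicClosure ℚ)).roots
    exact (@IsR.add_self _ _ _ _ _ _ (Classical.decEq _) hRR two_ne_zero _ _
      (Pool.Agent.Y698.SG.Cv.ns0 ℚ hb (AlgebraicClosure ℚ))).2 rfl
  have h2R : dl R + dl R = 0 := by
    rw [← dl_add, ← hR]
    funext σ
    rw [dl_apply, tors_fix hTT hT0T hT0X σ, sub_self]
    rfl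
  have hz2 : dl R ∈ Zc (WF ℚ a b) := ⟨dl_sha R, fun σ => congrFun h2R σ⟩
  obtain ⟨σ0, hσ0⟩ : ∃ σ0 : Gal ℚ, ¬ IsX ((WF ℚ a b).baseChange (AlgebraicClosure ℚ)) 0
      (dl R σ0) := by
    by_contra hcon
    push Not at hcon
    refine nb (half_sq ℚ hTT (R := R) (by rw [← hR]; exact hT0X)
      (by rw [← hR]; exact T0_ne ℚ hb) (fun σ => hcon σ) (fun σ => congrFun h2R σ))
  let z : {d : ℤ // d ∈ T} → Zc (WF ℚ a b) := fun x => ⟨coc ℚ hb x.1, hZ x⟩
  let z1 : Zc (WF ℚ a b) := ⟨dl R1, hz1⟩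
  let z2 : Zc (WF ℚ a b) := ⟨dl R, hz2⟩
  let F : {d : ℤ // d ∈ T} × Bool × Bool → Zc (WF ℚ a b) := fun x =>
    z x.1 + (if x.2.1 then z1 else 0) + (if x.2.2 then z2 else 0)
  have hFX : ∀ x, IsX ((WF ℚ a b).baseChange (AlgebraicClosure ℚ)) 0 ((F x).1 σ0) ↔
      x.2.2 = false := by
    rintro ⟨x, ε, δ⟩
    have e1 : (F (x, ε, δ)).1 σ0 = (z x).1 σ0 + (if ε then z1 else 0 : Zc (WF ℚ a b)).1 σ0 +
      (if δ then z2 else 0 : Zc (WF ℚ a b)).1 σ0 := rfl
    have h1 : IsX ((WF ℚ a b).baseChange (AlgebraicClosure ℚ)) 0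
        ((if ε then z1 else 0 : Zc (WF ℚ a b)).1 σ0) := by
      cases ε
      · exact isX_zero 0
      · exact isX_sub hTT hR1 σ0
    have h2 : IsX ((WF ℚ a b).baseChange (AlgebraicClosure ℚ)) 0
        ((if δ then z2 else 0 : Zc (WF ℚ a b)).1 σ0) ↔ δ = false := by
      cases δ
      · exact ⟨fun _ => rfl, fun _ => isX_zero 0⟩
      · exact ⟨fun h => absurd h hσ0, fun h => absurd h (by simp)⟩
    have h3 := (isX_add hTT ((z x).2.2 σ0) ((if ε then z1 else 0 : Zc (WF ℚ a b)).2.2 σ0)).2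
      ⟨fun _ => h1, fun _ => coc_isX ℚ hb x.1 σ0⟩
    have h4 := isX_add hTT ((z x + (if ε then z1 else 0 : Zc (WF ℚ a b))).2.2 σ0)
      ((if δ then z2 else 0 : Zc (WF ℚ a b)).2.2 σ0)
    rw [e1]
    refine h4.trans ⟨fun h => h2.1 (h.1 h3), fun h => ⟨fun _ => h2.2 h, fun _ => h3⟩⟩
  have hF : Function.Injective F := by
    rintro ⟨x, ε, δ⟩ ⟨y, ε', δ'⟩ h
    have hδ : δ = δ' := by
      have h1 := hFX (x, ε, δ)
      have h2 := hFX (y, ε', δ')
      rw [h] at h1
      have h3 : δ = false ↔ δ' = false := h1.symm.trans h2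
      cases δ <;> cases δ' <;> simp_all
    subst hδ
    have h5 : z x + (if ε then z1 else 0) = z y + (if ε' then z1 else 0) := add_right_cancel h
    have hxx : ∀ σ, (z x).1 σ + (z x).1 σ = 0 := (z x).2.2
    have hyy : ∀ σ, (z y).1 σ + (z y).1 σ = 0 := (z y).2.2
    have h11 : ∀ σ, z1.1 σ + z1.1 σ = 0 := z1.2.2
    have hxy : ∀ σ, coc ℚ (a := a) hb (x.1 * y.1) σ = (z x).1 σ + (z y).1 σ := fun σ =>
      coc_add' ℚ hb x.1 y.1 (hT x.1 x.2).1.ne' (hT y.1 y.2).1.ne' σ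
    have key : (∀ σ, coc ℚ (a := a) hb (x.1 * y.1) σ = z1.1 σ) → False := by
      intro h6
      have h7 : IsSquare (((x.1 * y.1 : ℤ) : ℚ) * ((a : ℚ) ^ 2 - 4 * b)) := by
        refine sq_of_coc_tors ℚ hb hg fun σ => ⟨fun h8 => ?_, fun h8 => ?_⟩
        · refine (hgσ σ).1 ?_
          rw [h6] at h8
          exact sub_eq_zero.1 h8
        · refine (hgσ σ).2 ?_
          rw [h6] at h8
          exact fun h9 => h8 (sub_eq_zero.2 h9)
      by_cases hxe : x.1 = y.1
      · apply nab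
        rw [← hxe] at h7
        obtain ⟨w, hw⟩ := h7
        have hx0 : (x.1 : ℚ) ≠ 0 := by exact_mod_cast (hT x.1 x.2).1.ne'
        refine ⟨w / x.1, ?_⟩
        push_cast at hw
        field_simp
        linear_combination hw
      · exact (hne x.1 x.2 y.1 y.2 hxe).2 h7
    have hεε : ε = ε' := by
      cases ε <;> cases ε'
      · rfl
      · exfalso
        refine key fun σ => ?_
        have h6 : (z x).1 σ + 0 = (z y).1 σ + z1.1 σ := congrFun (congrArg Subtype.val h5) σ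
        rw [hxy, ← add_zero ((z x).1 σ), h6, add_assoc, add_comm (z1.1 σ), ← add_assoc, hyy, zero_add]
      · exfalso
        refine key fun σ => ?_
        have h6 : (z x).1 σ + z1.1 σ = (z y).1 σ + 0 := congrFun (congrArg Subtype.val h5) σ
        rw [hxy, ← add_zero ((z y).1 σ), ← h6, ← add_assoc, hxx, zero_add]
      · rfl
    subst hεε
    have h6 : z x = z y := add_right_cancel h5
    have h7 : x = y := by
      by_contra hcon
      have hxe : x.1 ≠ y.1 := fun h8 => hcon (Subtype.ext h8)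
      refine (hne x.1 x.2 y.1 y.2 hxe).1 (sq_of_coc ℚ (a := a) hb fun σ => ?_)
      rw [hxy, ← h6, hxx]
    rw [h7]
  have h1 := Nat.card_le_card_of_injective F hF
  rw [Nat.card_prod, Nat.card_prod, Nat.card_eq_fintype_card, Fintype.card_coe,
    Nat.card_eq_fintype_card, Fintype.card_bool] at h1
  have h2 := h1.trans hcard
  have h3 : 4 * T.card ≤ 4 * (2 ^ rk (WF ℚ a b) *
      Nat.card {x : Sha (WF ℚ a b) // 2 • x = 0}) := by
    calc 4 * T.card = T.card * (2 * 2) := by ring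
      _ ≤ 4 * 2 ^ (Module.finrank ℤ (MP (WF ℚ a b))) *
        Nat.card {x : Pool.Agent.TH841.NF.D.Sha (WF ℚ a b) // 2 • x = 0} := h2
      _ = _ := by rw [mul_assoc]; rfl
  exact Nat.le_of_mul_le_mul_left h3 (by norm_num)

end

end Pool.Agent.U171.GE
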